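import Pool.Agent.Helper57.SL.Stmts

/-!
# The combination, uniformly for `σ` near `1` (row CMS; adapted from `Helper12/SJ/CMK.lean`)
-/

set_option autoImplicit false

namespace Pool.Agent.Helper14.SL

open MeasureTheory Set Filter Topology
open Pool.Agent.Helper57.QZ (Pr tor circ aa Zy Wy Sy Vy Ky pt lin Good zA Pz)
open Pool.Agent.Helper57.SI (fej fc gc Kk zz ww)
open Pool.Agent.Helper57.SL

theorem cms_re (θ : ℝ) (W : ℂ) : |(Complex.exp (-((θ : ℂ) * Complex.I)) * W).re| ≤ ‖W‖ := by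
  refine (Complex.abs_re_le_norm _).trans ?_
  rw [norm_mul, Complex.norm_exp]
  simp

theorem cms_meas (T H B : ℝ) (hT : 0 < T) (hH : 3 ≤ H) :
    T * H ^ (-(B + 1)) + T * H ^ (-(B + 1)) ≤ T * H ^ (-B) := by
  have hH0 : 0 < H := by linarith
  have e1 : H ^ (-(B + 1)) = H ^ (-B) * H⁻¹ := by
    rw [neg_add, Real.rpow_add hH0, Real.rpow_neg_one]
  have e2 : 0 < H ^ (-B) := Real.rpow_pos_of_pos hH0 _
  have e3 : H⁻¹ ≤ 1 / 2 := by
    rw [inv_eq_one_div]
    exact one_div_le_one_div_of_le (by norm_num) (by linarith)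
  have e4 : T * H ^ (-B) * H⁻¹ ≤ T * H ^ (-B) * (1 / 2) :=
    mul_le_mul_of_nonneg_left e3 (by positivity)
  rw [e1]
  linarith

theorem cms_S2mono (σ : ℝ) (a b : ℕ) (h : a ≤ b) : S2 σ a ≤ S2 σ b := by
  unfold S2
  refine Finset.sum_le_sum_of_subset_of_nonneg ?_ ?_
  · intro p hp
    rw [Nat.mem_primesBelow] at hp ⊢
    exact ⟨by omega, hp.2⟩
  · intro p _ _
    exact mul_nonneg (Real.log_natCast_nonneg p) (Real.rpow_nonneg (Nat.cast_nonneg p) _)

theorem cms_F1nonneg (σ : ℝ) (y x : ℕ) (φ : Pr y → ℝ) : 0 ≤ F1 σ y x φ := by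
  unfold F1
  refine Finset.sum_nonneg fun p _ => ?_
  split_ifs
  · exact mul_nonneg (Real.rpow_nonneg (Nat.cast_nonneg _) _)
      (by linarith [Real.cos_le_one (φ p)])
  · exact le_refl _

theorem cms_T (c T : ℝ) (hc : 0 < c) (hT : Real.exp (Real.exp (1 / c)) ≤ T) :
    Real.exp (Real.log T / Real.log (Real.log T)) ≤ T ^ c := by
  have hTpos : 0 < T := (Real.exp_pos _).trans_le hT
  have h1 : Real.exp (1 / c) ≤ Real.log T := by
    rw [Real.le_log_iff_exp_le hTpos]; exact hT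
  have hl : 0 < Real.log T := (Real.exp_pos _).trans_le h1
  have h2 : 1 / c ≤ Real.log (Real.log T) := by
    rw [Real.le_log_iff_exp_le hl]; exact h1
  have h3 : 0 < Real.log (Real.log T) := (one_div_pos.2 hc).trans_le h2
  rw [Real.rpow_def_of_pos hTpos]
  apply Real.exp_le_exp.2
  rw [div_le_iff₀ h3]
  have h4 : 1 ≤ c * Real.log (Real.log T) := by
    rw [div_le_iff₀ hc] at h2
    linarith
  calc Real.log T = Real.log T * 1 := (mul_one _).symm
    _ ≤ Real.log T * (c * Real.log (Real.log T)) := mul_le_mul_of_nonneg_left h4 hl.le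
    _ = Real.log T * c * Real.log (Real.log T) := by ring

theorem st_CMS (h1 : ST_MTS) (h2 : ST_LOWS) (h3 : ST_UPS) (h4 : ST_DES) (h5 : ST_DWS)
    (h6 : ST_APS) : ST_CMS := by
  intro δ hδ B hB
  obtain ⟨CL, hCL, hL⟩ := h4
  obtain ⟨CW, hCW, hW⟩ := h5
  have hδ0 := hδ.1
  have hδ1 := hδ.2
  obtain ⟨η, hδη⟩ : ∃ η : ℝ, δ = 400 * η := ⟨δ / 400, by ring⟩
  have hη0 : 0 < η := by linarith
  have hη1 : η < 1 / 400 := by linarith
  have hηI : η ∈ Ioo (0:ℝ) 1 := ⟨hη0, by linarith⟩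
  obtain ⟨Q, hQ, hAP0⟩ := h6 η ⟨hη0, by linarith⟩
  obtain ⟨c, hc, Ta, hTa, hAP⟩ := hAP0 (B + 1) (by linarith)
  obtain ⟨Hb, Tb, hHb, hTb, hUPT⟩ := h3 η hηI Q hQ (B + 1) (by linarith)
  obtain ⟨Hc, hHc, hlow⟩ := h2 η hηI
  have hc0 : 0 < c := hc.1
  obtain ⟨C, hC⟩ : ∃ C : ℝ, C = 1 + CW + (CL / η) ^ 2 := ⟨_, rfl⟩
  have hCC : 0 ≤ (CL / η) ^ 2 := sq_nonneg _
  obtain ⟨κ, hκ, Ha, hHa3, hHa⟩ := h1 η hηI C
  refine ⟨κ, hκ, max Ha (max Hb Hc), max Ta (max Tb (Real.exp (Real.exp (1 / c)))), ?_, ?_,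
    fun T hT H hH hHT => ?_⟩
  · exact hHa3.trans (le_max_left _ _)
  · exact hTa.trans (le_max_left _ _)
  have hH1 : Ha ≤ H := (le_max_left _ _).trans hH
  have hH2 : Hb ≤ H := ((le_max_left _ _).trans (le_max_right _ _)).trans hH
  have hH3 : Hc ≤ H := ((le_max_right _ _).trans (le_max_right _ _)).trans hH
  have hT1 : Ta ≤ T := (le_max_left _ _).trans hT
  have hT2 : Tb ≤ T := ((le_max_left _ _).trans (le_max_right _ _)).trans hT
  have hT3 : Real.exp (Real.exp (1 / c)) ≤ T :=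
    ((le_max_right _ _).trans (le_max_right _ _)).trans hT
  have hTpos : 0 < T := by linarith
  have hH30 : 3 ≤ H := hHa3.trans hH1
  have hHc2 : H ≤ T ^ c := hHT.trans (cms_T c T hc0 hT3)
  obtain ⟨m1, m2, m3, m4, m5, m6, mσ⟩ := hHa H hH1
  refine ⟨m1, fun σ hσ => ?_⟩
  obtain ⟨m7, m8, m9, m10, m11⟩ := mσ σ hσ
  obtain ⟨hyy, hUσ⟩ := hUPT T hT2 H hH2 hHT
  have hσ34 : σ ∈ Icc (3 / 4 : ℝ) 1 := ⟨m7, hσ.2⟩
  have hσ1 : σ ∈ Icc (1 - 1 / l3 H) 1 := by
    refine ⟨?_, hσ.2⟩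
    have a1 : κ / l3 H ≤ 1 / l3 H :=
      div_le_div_of_nonneg_right hκ.2.le (by linarith)
    linarith [hσ.1]
  obtain ⟨E2s, e2, e2', e2''⟩ := hUσ σ hσ1
  obtain ⟨E1s, e1, e1', e1''⟩ := hAP T hT1 H hH30 hHc2 σ hσ34
  obtain ⟨L, hLdef⟩ : ∃ L : ℝ, Real.log (Real.log H) = L := ⟨_, rfl⟩
  have hL1 : 1 < L := by
    have b1 : 0 ≤ L := by rw [hLdef] at m6; linarith
    have b2 : 1 ≤ Real.log L := by rw [← hLdef]; exact m1
    by_contra b3
    have b4 := Real.log_nonpos b1 (not_lt.1 b3)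
    linarith
  have hLpos : 0 < L := by linarith
  rw [hLdef] at m6 m9 m11
  have hlow2 := hlow H hH3 σ hσ34
  rw [hLdef] at hlow2 e2''
  rw [hLdef]
  obtain ⟨z, hz⟩ : ∃ z : ℕ, zz H = z := ⟨_, rfl⟩
  obtain ⟨Y, hY⟩ : ∃ Y : ℕ, YY H = Y := ⟨_, rfl⟩
  obtain ⟨N, hN⟩ : ∃ N : ℕ, ⌊Real.log H⌋₊ = N := ⟨_, rfl⟩
  obtain ⟨y, hy⟩ : ∃ y : ℕ, zA Q T = y := ⟨_, rfl⟩
  rw [hz] at m2 m3 m8 m9 m10 m11 hlow2 e2''
  rw [hY] at m4 m5 m6 m10 m11 hyy e2''
  rw [hN] at m3 m4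
  rw [hy] at hyy e2'' e1''
  rw [hN]
  have hz1 : 1 ≤ z := by
    have : (1:ℝ) ≤ (z : ℝ) := by linarith
    exact_mod_cast this
  have hzY : z ≤ Y := m3.trans m4
  have s1 : S2 σ z ≤ S2 σ N := cms_S2mono σ z N m3
  have s2 : S2 σ N ≤ S2 σ Y := cms_S2mono σ N Y m4
  obtain ⟨S, hS⟩ : ∃ S : ℝ, S2 σ z = S := ⟨_, rfl⟩
  obtain ⟨S', hS'⟩ : ∃ S' : ℝ, S2 σ N = S' := ⟨_, rfl⟩
  rw [hS] at m8 m9 m10 m11 s1 hlow2 e2''
  rw [hS'] at s1 s2
  rw [hS']
  obtain ⟨th, hth⟩ : ∃ th : ℝ, S / L = th := ⟨_, rfl⟩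
  rw [hth] at m11 hlow2 e2''
  have hthL : S = th * L := by rw [← hth]; field_simp
  have hth1 : 1 / 2 ≤ th := by
    rw [← hth, le_div_iff₀ hLpos]; exact m9
  have hSth : th ≤ S := by
    rw [hthL]
    calc th = th * 1 := (mul_one th).symm
      _ ≤ th * L := mul_le_mul_of_nonneg_left hL1.le (by linarith)
  have hS0 : 0 < S := by linarith
  have hηS : η * th ≤ η * S := mul_le_mul_of_nonneg_left hSth hη0.le
  have hηth : η ≤ 2 * (η * th) := by
    have : η * (1 / 2) ≤ η * th := mul_le_mul_of_nonneg_left hth1 hη0.le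
    linarith
  have hηth0 : 0 ≤ η * th := by positivity
  have hηSS' : η * S ≤ η * S' := mul_le_mul_of_nonneg_left s1 hη0.le
  have hηS0 : 0 ≤ η * S := by positivity
  have hS'L : th ≤ S' / L := by
    rw [← hth]
    exact div_le_div_of_nonneg_right s1 hLpos.le
  have hS'L2 : S' / L ≤ (1 + η) * th := by
    rw [← hth, ← mul_div_assoc]
    exact div_le_div_of_nonneg_right (s2.trans m10) hLpos.le
  have m10' : S2 σ Y ≤ S + η * S := by
    have : (1 + η) * S = S + η * S := by ring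
    rw [← this]; exact m10
  refine ⟨by linarith only [m9, s1], S1 σ z + Ky y σ, Real.exp (S1 σ Y + Ky y σ + η * th + η),
    E1s ∪ E2s, union_subset e1 e2, ?_, fun u hu huE => ?_⟩
  · have a2 := measureReal_union_le (μ := (volume : Measure ℝ)) E1s E2s
    have a3 := cms_meas T H B hTpos hH30
    linarith only [a2, a3, e1', e2']
  simp only [mem_union, not_or] at huE
  obtain ⟨n1, n2⟩ := huE
  obtain ⟨q0, q1⟩ := e1'' u hu n1
  have q2 := e2'' u hu n2
  have key : ∀ t ∈ Icc u (u + H), ∀ θ : ℝ, |(Complex.exp (-((θ : ℂ) * Complex.I)) *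
      (deriv riemannZeta (pt σ t) / riemannZeta (pt σ t))).re -
      (Complex.exp (-((θ : ℂ) * Complex.I)) * Wy y σ (lin y t)).re| ≤ η := by
    intro t ht θ
    obtain ⟨-, -, k3⟩ := q1 t ht
    have w3 := cms_re θ (deriv riemannZeta (pt σ t) / riemannZeta (pt σ t) - Wy y σ (lin y t))
    rw [mul_sub, Complex.sub_re] at w3
    exact w3.trans k3
  refine ⟨q0, fun t ht => ?_, ?_, fun θ => ?_⟩
  · obtain ⟨k1, k2, k3⟩ := q1 t ht
    obtain ⟨u1, -⟩ := hL y z Y t σ (η * th) hσ34 hz1 hzY hyy (q2 t ht 0 (by norm_num))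
    obtain ⟨v1, v2, -⟩ := hW y z Y t σ (η * th) hσ34 hz1 hzY hyy (q2 t ht 1 (by norm_num))
    have hF := cms_F1nonneg σ y Y (lin y t)
    have k2' := abs_le.1 k2
    have k3a : ‖deriv riemannZeta (pt σ t) / riemannZeta (pt σ t)‖ ≤
        ‖Wy y σ (lin y t)‖ + η := by
      have := norm_add_le (deriv riemannZeta (pt σ t) / riemannZeta (pt σ t) -
        Wy y σ (lin y t)) (Wy y σ (lin y t))
      rw [sub_add_cancel] at this
      linarith only [this, k3]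
    have k3b : ‖Wy y σ (lin y t)‖ - η ≤
        ‖deriv riemannZeta (pt σ t) / riemannZeta (pt σ t)‖ := by
      have := norm_sub_norm_le (Wy y σ (lin y t))
        (deriv riemannZeta (pt σ t) / riemannZeta (pt σ t))
      rw [norm_sub_rev] at this
      linarith only [this, k3]
    refine ⟨k1, ?_, ?_, fun hM => ?_⟩
    · have b1 : Real.log ‖riemannZeta (pt σ t)‖ ≤ S1 σ Y + Ky y σ + η * th + η := by
        linarith only [k2'.2, u1, hF]
      have b2 := Real.exp_le_exp.2 b1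
      rwa [Real.exp_log (norm_pos_iff.2 k1)] at b2
    · have c4 : (1 + δ) * S' = S' + 400 * (η * S') := by rw [hδη]; ring
      rw [c4]
      linarith only [k3a, v1, m10', hηS, m8, hC, hCC, hη1, s1, hηSS', hηS0]
    · have d1 : F1 σ y Y (lin y t) ≤ 105 * (η * th) := by
        have d2 : δ / 4 * (S' / L) ≤ 100 * η * ((1 + η) * th) := by
          have : δ / 4 = 100 * η := by rw [hδη]; ring
          rw [this]
          exact mul_le_mul_of_nonneg_left hS'L2 (by positivity)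
        have d3 : 100 * η * ((1 + η) * th) = 100 * (η * th) + 100 * η * (η * th) := by ring
        have d4 : 100 * η * (η * th) ≤ 1 * (η * th) :=
          mul_le_mul_of_nonneg_right (by linarith only [hη1]) hηth0
        linarith only [hM, d2, d3, d4, k2'.2, u1, m11, hηth]
      have d5 : Real.log Y * F1 σ y Y (lin y t) ≤ 2 * L * (105 * (η * th)) :=
        mul_le_mul m6 d1 hF (by linarith only [hLpos])
      have d6 : 2 * L * (105 * (η * th)) = 210 * (η * S) := by rw [hthL]; ring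
      have c4 : (1 - δ) * S' = S' - 400 * (η * S') := by rw [hδη]; ring
      rw [c4]
      linarith only [k3b, v2, d5, d6, hηS, m8, hC, hCC, hη1, s2, hηSS', hηS0]
  · obtain ⟨t, ht, f1, -⟩ := hlow2 u 0
    refine ⟨t, ht, ?_⟩
    obtain ⟨k1, k2, k3⟩ := q1 t ht
    have k2' := abs_le.1 k2
    obtain ⟨-, u2⟩ := hL y z Y t σ (η * th) hσ34 hz1 hzY hyy (q2 t ht 0 (by norm_num))
    have l1 := u2 f1
    have hzpos : (0:ℝ) < (z : ℝ) := by exact_mod_cast hz1
    have l2 : CL / Real.sqrt z ≤ η := by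
      have s1 : CL / η ≤ Real.sqrt z := by
        apply Real.le_sqrt_of_sq_le
        linarith only [m2, hC, hCW]
      have s2 : 0 < Real.sqrt (z : ℝ) := Real.sqrt_pos.2 hzpos
      rw [div_le_iff₀ s2]
      rw [div_le_iff₀ hη0] at s1
      linarith only [s1]
    have l3 : 50 * (η * th) ≤ δ / 8 * (S' / L) := by
      have : δ / 8 = 50 * η := by rw [hδη]; ring
      rw [this]
      calc 50 * (η * th) = 50 * η * th := by ring
        _ ≤ 50 * η * (S' / L) := mul_le_mul_of_nonneg_left hS'L (by positivity)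
    linarith only [l1, l2, l3, k2'.1, m11, hηth, hηth0]
  · obtain ⟨t, ht, -, g2⟩ := hlow2 u (θ + Real.pi)
    refine ⟨t, ht, ?_⟩
    obtain ⟨-, -, v3⟩ := hW y z Y t σ (η * th) hσ34 hz1 hzY hyy (q2 t ht 1 (by norm_num))
    have w1 := v3 θ
    rw [hS] at w1
    have w2 := (abs_le.1 (key t ht θ)).1
    have c4 : (1 - δ) * S' = S' - 400 * (η * S') := by rw [hδη]; ring
    rw [c4]
    linarith only [w1, w2, g2, m10', hηS, m8, hC, hCC, hη1, s2, hηSS', hηS0]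

end Pool.Agent.Helper14.SL
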